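import Pool.Agent.Lead.TB.Defs

/-!
# Project TB: labellings compatible with a half
-/

set_option autoImplicit false

namespace Pool.Agent.Lead.TB

open Finset

namespace H85Lab

/-- The labelling given by a choice of signs and labellings of `K` and of its complement. -/
def toE {X : Type} [DecidableEq X] {m : ℕ} (K : Finset X)
    (t : (Fin m → Bool) × ({x // x ∈ K} ≃ Fin m) × ({x // x ∉ K} ≃ Fin m)) :
    X ≃ Fin m × Bool :=
  (Equiv.sumCompl (fun x => x ∈ K)).symm.trans
    ((Equiv.sumCongr t.2.1 t.2.2).trans
      { toFun := Sum.elim (fun i => (i, t.1 i)) fun i => (i, !(t.1 i))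
        invFun := fun p => if p.2 = t.1 p.1 then Sum.inl p.1 else Sum.inr p.1
        left_inv := by
          rintro (i | i)
          · simp
          · simp
        right_inv := by
          rintro ⟨i, b⟩
          by_cases h : b = t.1 i
          · simp [h]
          · have h' : (!(t.1 i)) = b := by
              cases hb : t.1 i <;> cases b <;> simp_all
            simp [h, h'] })

theorem toE_pos {X : Type} [DecidableEq X] {m : ℕ} (K : Finset X)
    (t : (Fin m → Bool) × ({x // x ∈ K} ≃ Fin m) × ({x // x ∉ K} ≃ Fin m)) {x : X} (hx : x ∈ K) :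
    toE K t x = (t.2.1 ⟨x, hx⟩, t.1 (t.2.1 ⟨x, hx⟩)) := by
  simp [toE, Equiv.sumCompl_symm_apply_of_pos hx]

theorem toE_neg {X : Type} [DecidableEq X] {m : ℕ} (K : Finset X)
    (t : (Fin m → Bool) × ({x // x ∈ K} ≃ Fin m) × ({x // x ∉ K} ≃ Fin m)) {x : X} (hx : x ∉ K) :
    toE K t x = (t.2.2 ⟨x, hx⟩, !(t.1 (t.2.2 ⟨x, hx⟩))) := by
  simp [toE, Equiv.sumCompl_symm_apply_of_neg hx]

theorem toE_injective {X : Type} [DecidableEq X] {m : ℕ} (K : Finset X) :
    Function.Injective (toE (m := m) K) := by
  rintro ⟨f, a, b⟩ ⟨f', a', b'⟩ h
  have ha : a = a' := by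
    ext x
    have h1 := congrArg (fun e : X ≃ Fin m × Bool => (e x.1).1) h
    simp only [toE_pos K _ x.2] at h1
    exact congrArg Fin.val h1
  have hb : b = b' := by
    ext x
    have h1 := congrArg (fun e : X ≃ Fin m × Bool => (e x.1).1) h
    simp only [toE_neg K _ x.2] at h1
    exact congrArg Fin.val h1
  subst ha hb
  have hf : f = f' := by
    funext i
    have h1 := congrArg (fun e : X ≃ Fin m × Bool => (e (a.symm i).1).2) h
    simp only [toE_pos K _ (a.symm i).2, Subtype.coe_eta, Equiv.apply_symm_apply] at h1
    exact h1
  subst hf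
  rfl

end H85Lab

open H85Lab

theorem h85_card_lab {X : Type} [Fintype X] [DecidableEq X] (m : ℕ) (hX : Fintype.card X = 2 * m)
    (K : Finset X) (hK : K.card = m) :
    (univ.filter fun e : X ≃ Fin m × Bool =>
      ∀ i : Fin m, (e.symm (i, true) ∈ K ↔ e.symm (i, false) ∉ K)).card =
      2 ^ m * m.factorial ^ 2 := by
  classical
  have hc1 : Fintype.card {x // x ∈ K} = m := by rw [Fintype.card_coe, hK]
  have hc2 : Fintype.card {x // x ∉ K} = m := by
    rw [Fintype.card_subtype_compl, hX, Fintype.card_coe, hK]
    omega
  have key : (univ.filter fun e : X ≃ Fin m × Bool =>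
      ∀ i : Fin m, (e.symm (i, true) ∈ K ↔ e.symm (i, false) ∉ K)) = univ.image (toE K) := by
    ext e
    simp only [mem_filter, mem_univ, true_and, mem_image]
    constructor
    · intro h
      have hone : ∀ x y : X, (e x).1 = (e y).1 → (x ∈ K ↔ y ∈ K) → x = y := by
        intro x y h1 h2
        by_contra hne
        have h3 : (e x).2 ≠ (e y).2 := fun h3 => hne (e.injective (Prod.ext h1 h3))
        have hx : e.symm ((e x).1, (e x).2) = x := e.symm_apply_apply x
        have hy : e.symm ((e x).1, (e y).2) = y := by rw [h1]; exact e.symm_apply_apply y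
        have h4 := h (e x).1
        cases hbx : (e x).2 <;> cases hby : (e y).2
        · exact h3 (hbx.trans hby.symm)
        · rw [hbx] at hx
          rw [hby] at hy
          rw [hx, hy] at h4
          tauto
        · rw [hbx] at hx
          rw [hby] at hy
          rw [hx, hy] at h4
          tauto
        · exact h3 (hbx.trans hby.symm)
      have hia : Function.Injective fun x : {x // x ∈ K} => (e x.1).1 := by
        intro x y hxy
        exact Subtype.ext (hone x.1 y.1 hxy ⟨fun _ => y.2, fun _ => x.2⟩)
      have hib : Function.Injective fun x : {x // x ∉ K} => (e x.1).1 := by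
        intro x y hxy
        exact Subtype.ext (hone x.1 y.1 hxy ⟨fun hx => absurd hx x.2, fun hy => absurd hy y.2⟩)
      have hba : Function.Bijective fun x : {x // x ∈ K} => (e x.1).1 :=
        (Fintype.bijective_iff_injective_and_card _).2 ⟨hia, by rw [hc1, Fintype.card_fin]⟩
      have hbb : Function.Bijective fun x : {x // x ∉ K} => (e x.1).1 :=
        (Fintype.bijective_iff_injective_and_card _).2 ⟨hib, by rw [hc2, Fintype.card_fin]⟩
      refine ⟨⟨fun i => decide (e.symm (i, true) ∈ K), Equiv.ofBijective _ hba,
        Equiv.ofBijective _ hbb⟩, ?_⟩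
      apply Equiv.ext
      intro x
      have hx : e.symm ((e x).1, (e x).2) = x := e.symm_apply_apply x
      have h4 := h (e x).1
      by_cases hxK : x ∈ K
      · rw [toE_pos K _ hxK]
        refine Prod.ext rfl ?_
        simp only [Equiv.ofBijective_apply]
        cases hbx : (e x).2
        · rw [hbx] at hx
          rw [hx] at h4
          simp only [decide_eq_false_iff_not]
          tauto
        · rw [hbx] at hx
          rw [hx]
          simp [hxK]
      · rw [toE_neg K _ hxK]
        refine Prod.ext rfl ?_
        simp only [Equiv.ofBijective_apply]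
        cases hbx : (e x).2
        · rw [hbx] at hx
          rw [hx] at h4
          simp only [Bool.not_eq_false', decide_eq_true_eq]
          tauto
        · rw [hbx] at hx
          rw [hx]
          simp [hxK]
    · rintro ⟨t, rfl⟩ i
      have h1 : ∀ b : Bool, (toE K t).symm (i, b) ∈ K ↔ b = t.1 i := by
        intro b
        set x := (toE K t).symm (i, b) with hx
        have hx' : toE K t x = (i, b) := by rw [hx, Equiv.apply_symm_apply]
        constructor
        · intro hxK
          rw [toE_pos K t hxK] at hx'
          have h2 := congrArg Prod.fst hx'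
          have h3 := congrArg Prod.snd hx'
          simp only at h2 h3
          rw [← h3, h2]
        · intro hb
          by_contra hxK
          rw [toE_neg K t hxK] at hx'
          have h2 := congrArg Prod.fst hx'
          have h3 := congrArg Prod.snd hx'
          simp only at h2 h3
          rw [h2, hb] at h3
          cases ht : t.1 i <;> simp [ht] at h3
      rw [h1, h1]
      cases t.1 i <;> simp
  rw [key, card_image_of_injective _ (toE_injective K), card_univ, Fintype.card_prod,
    Fintype.card_prod, Fintype.card_fun, Fintype.card_bool, Fintype.card_fin]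
  rw [Fintype.card_equiv (Fintype.equivOfCardEq (hc1.trans (Fintype.card_fin m).symm)), hc1,
    Fintype.card_equiv (Fintype.equivOfCardEq (hc2.trans (Fintype.card_fin m).symm)), hc2, sq]

end Pool.Agent.Lead.TB
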