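import Pool.Agent.Helper70.TB.TwoColor
import Pool.Agent.Helper85.TB.Lab

/-!
# Project TB, module TB-D: the number of halves
-/

set_option autoImplicit false

namespace Pool.Agent.Lead.TB

open Finset

namespace Halves

/-- A set which contains exactly one member of every pair is a half. -/
theorem card_of_pairs {X : Type} [Fintype X] [DecidableEq X] {m : ℕ} (e : X ≃ Fin m × Bool)
    (K : Finset X) (h : ∀ i : Fin m, (e.symm (i, true) ∈ K ↔ e.symm (i, false) ∉ K)) :
    K.card = m := by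
  have h1 : K.card = ∑ x : X, if x ∈ K then 1 else 0 := by
    rw [Finset.sum_ite_mem]
    simp
  rw [h1, ← Equiv.sum_comp e.symm, Fintype.sum_prod_type]
  have h2 : ∀ i : Fin m, (∑ b : Bool, if e.symm (i, b) ∈ K then 1 else 0) = 1 := by
    intro i
    rw [Fintype.sum_bool]
    by_cases h3 : e.symm (i, true) ∈ K
    · rw [if_pos h3, if_neg ((h i).1 h3)]
    · rw [if_neg h3, if_pos (by
        by_contra h4
        exact h3 ((h i).2 h4))]
  rw [Finset.sum_congr rfl fun i _ => h2 i]
  simp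

variable {n m : ℕ} (G : Gr n)

/-- The labellings. -/
abbrev Lab (m : ℕ) : Type :=
  ((r : Fin n) → ({c : Fin n // c ∈ G r} ≃ Fin m × Bool)) ×
    ((c : Fin n) → ({r : Fin n // c ∈ G r} ≃ Fin m × Bool))

/-- The members of `K` in a row. -/
def inR (K : Gr n) (r : Fin n) : Finset {c : Fin n // c ∈ G r} :=
  (K r).subtype fun c => c ∈ G r

/-- The members of `K` in a column. -/
def inC (K : Gr n) (c : Fin n) : Finset {r : Fin n // c ∈ G r} :=
  (univ.filter fun r => c ∈ K r).subtype fun r => c ∈ G r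

theorem mem_inR {K : Gr n} {r : Fin n} {x : {c : Fin n // c ∈ G r}} :
    x ∈ inR G K r ↔ x.1 ∈ K r := by
  simp [inR]

theorem mem_inC {K : Gr n} {c : Fin n} {x : {r : Fin n // c ∈ G r}} :
    x ∈ inC G K c ↔ c ∈ K x.1 := by
  simp [inC]

/-- The labellings compatible with `K` in the row `r`. -/
def labR (m : ℕ) (K : Gr n) (r : Fin n) : Finset ({c : Fin n // c ∈ G r} ≃ Fin m × Bool) :=
  univ.filter fun e => ∀ i : Fin m, (e.symm (i, true) ∈ inR G K r ↔ e.symm (i, false) ∉ inR G K r)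

/-- The labellings compatible with `K` in the column `c`. -/
def labC (m : ℕ) (K : Gr n) (c : Fin n) : Finset ({r : Fin n // c ∈ G r} ≃ Fin m × Bool) :=
  univ.filter fun e => ∀ i : Fin m, (e.symm (i, true) ∈ inC G K c ↔ e.symm (i, false) ∉ inC G K c)

/-- The labellings compatible with `K`. -/
def com (m : ℕ) (K : Gr n) : Finset (Lab G m) :=
  (Fintype.piFinset fun r => labR G m K r) ×ˢ (Fintype.piFinset fun c => labC G m K c)

theorem card_inR {K : Gr n} (hK : ∀ r, K r ⊆ G r) (r : Fin n) : (inR G K r).card = (K r).card := by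
  rw [inR, Finset.card_subtype, Finset.filter_true_of_mem fun c hc => hK r hc]

theorem card_inC {K : Gr n} (hK : ∀ r, K r ⊆ G r) (c : Fin n) :
    (inC G K c).card = (univ.filter fun r => c ∈ K r).card := by
  rw [inC, Finset.card_subtype, Finset.filter_true_of_mem fun r hr => hK r (mem_filter.1 hr).2]

theorem card_row (hG : Reg (2 * m) G) (r : Fin n) :
    Fintype.card {c : Fin n // c ∈ G r} = 2 * m := by
  rw [Fintype.card_coe, hG.1 r]

theorem card_col (hG : Reg (2 * m) G) (c : Fin n) :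
    Fintype.card {r : Fin n // c ∈ G r} = 2 * m := by
  rw [Fintype.card_subtype, hG.2 c]

theorem card_com (hG : Reg (2 * m) G) {K : Gr n} (hK : K ∈ half m G) :
    (com G m K).card = (2 ^ m * m.factorial ^ 2) ^ (2 * n) := by
  rw [half, mem_filter] at hK
  obtain ⟨-, h1, h2, h3⟩ := hK
  rw [com, card_product, Fintype.card_piFinset, Fintype.card_piFinset]
  have h4 : ∀ r, (labR G m K r).card = 2 ^ m * m.factorial ^ 2 := fun r =>
    h85_card_lab m (card_row G hG r) (inR G K r) (by rw [card_inR G h1, h2])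
  have h5 : ∀ c, (labC G m K c).card = 2 ^ m * m.factorial ^ 2 := fun c =>
    h85_card_lab m (card_col G hG c) (inC G K c) (by rw [card_inC G h1, h3])
  simp only [h4, h5, prod_const, card_univ, Fintype.card_fin]
  rw [← pow_add, two_mul]

theorem card_Lab (hG : Reg (2 * m) G) :
    Fintype.card (Lab G m) = (2 * m).factorial ^ (2 * n) := by
  have hb : Fintype.card (Fin m × Bool) = 2 * m := by
    rw [Fintype.card_prod, Fintype.card_fin, Fintype.card_bool, mul_comm]
  rw [Fintype.card_prod, Fintype.card_pi, Fintype.card_pi]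
  have h4 : ∀ r : Fin n, Fintype.card ({c : Fin n // c ∈ G r} ≃ Fin m × Bool) =
      (2 * m).factorial := fun r => by
    have h := card_row G hG r
    rw [Fintype.card_equiv (Fintype.equivOfCardEq (h.trans hb.symm)), h]
  have h5 : ∀ c : Fin n, Fintype.card ({r : Fin n // c ∈ G r} ≃ Fin m × Bool) =
      (2 * m).factorial := fun c => by
    have h := card_col G hG c
    rw [Fintype.card_equiv (Fintype.equivOfCardEq (h.trans hb.symm)), h]
  simp only [h4, h5, prod_const, card_univ, Fintype.card_fin]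
  rw [← pow_add, two_mul n]

/-- The edges. -/
abbrev Ed : Type := {e : Fin n × Fin n // e.2 ∈ G e.1}

/-- The other member of the pair of `x`. -/
def par {X : Type} (f : X ≃ Fin m × Bool) (x : X) : X := f.symm ((f x).1, !(f x).2)

theorem par_par {X : Type} (f : X ≃ Fin m × Bool) (x : X) : par f (par f x) = x := by
  simp [par]

theorem par_ne {X : Type} (f : X ≃ Fin m × Bool) (x : X) : par f x ≠ x := by
  intro h
  have h1 := congrArg (fun y => (f y).2) h
  simp [par] at h1

theorem par_true {X : Type} (f : X ≃ Fin m × Bool) (i : Fin m) :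
    par f (f.symm (i, true)) = f.symm (i, false) := by
  simp [par]

/-- The partner of an edge in its row. -/
def parR (l : Lab G m) (e : Ed G) : Ed G :=
  ⟨(e.1.1, (par (l.1 e.1.1) ⟨e.1.2, e.2⟩).1), (par (l.1 e.1.1) ⟨e.1.2, e.2⟩).2⟩

/-- The partner of an edge in its column. -/
def parC (l : Lab G m) (e : Ed G) : Ed G :=
  ⟨((par (l.2 e.1.2) ⟨e.1.1, e.2⟩).1, e.1.2), (par (l.2 e.1.2) ⟨e.1.1, e.2⟩).2⟩

theorem parR_parR (l : Lab G m) (e : Ed G) : parR G l (parR G l e) = e := by
  apply Subtype.ext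
  refine Prod.ext rfl ?_
  exact congrArg Subtype.val (par_par (l.1 e.1.1) ⟨e.1.2, e.2⟩)

theorem parC_parC (l : Lab G m) (e : Ed G) : parC G l (parC G l e) = e := by
  apply Subtype.ext
  refine Prod.ext ?_ rfl
  exact congrArg Subtype.val (par_par (l.2 e.1.2) ⟨e.1.1, e.2⟩)

theorem parR_ne (l : Lab G m) (e : Ed G) : parR G l e ≠ e := by
  intro h
  have h1 : (par (l.1 e.1.1) ⟨e.1.2, e.2⟩).1 = e.1.2 := congrArg (fun z : Ed G => z.1.2) h
  exact par_ne (l.1 e.1.1) ⟨e.1.2, e.2⟩ (Subtype.ext h1)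

theorem parC_ne (l : Lab G m) (e : Ed G) : parC G l e ≠ e := by
  intro h
  have h1 : (par (l.2 e.1.2) ⟨e.1.1, e.2⟩).1 = e.1.1 := congrArg (fun z : Ed G => z.1.1) h
  exact par_ne (l.2 e.1.2) ⟨e.1.1, e.2⟩ (Subtype.ext h1)

theorem exists_com (l : Lab G m) : ∃ K ∈ half m G, l ∈ com G m K := by
  classical
  obtain ⟨K, hK⟩ := two_color (parR G l) (parC G l) (parR_parR G l) (parR_ne G l) (parC_parC G l)
    (parC_ne G l)
  let K' : Gr n := fun r => univ.filter fun c => ∃ h : c ∈ G r, (⟨(r, c), h⟩ : Ed G) ∈ K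
  have hmem : ∀ r c, c ∈ K' r ↔ ∃ h : c ∈ G r, (⟨(r, c), h⟩ : Ed G) ∈ K := by
    intro r c
    simp [K']
  have hsub : ∀ r, K' r ⊆ G r := by
    intro r c hc
    exact ((hmem r c).1 hc).1
  have hR : ∀ r (x : {c : Fin n // c ∈ G r}), x ∈ inR G K' r ↔ (⟨(r, x.1), x.2⟩ : Ed G) ∈ K := by
    intro r x
    rw [mem_inR, hmem]
    exact ⟨fun ⟨_, h⟩ => h, fun h => ⟨x.2, h⟩⟩
  have hC : ∀ c (x : {r : Fin n // c ∈ G r}), x ∈ inC G K' c ↔ (⟨(x.1, c), x.2⟩ : Ed G) ∈ K := by
    intro c x
    rw [mem_inC, hmem]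
    exact ⟨fun ⟨_, h⟩ => h, fun h => ⟨x.2, h⟩⟩
  have h1 : ∀ r, l.1 r ∈ labR G m K' r := by
    intro r
    rw [labR, mem_filter]
    refine ⟨mem_univ _, fun i => ?_⟩
    rw [hR, hR]
    have h2 := (hK ⟨(r, ((l.1 r).symm (i, true)).1), ((l.1 r).symm (i, true)).2⟩).1
    rw [h2]
    have h3 : parR G l ⟨(r, ((l.1 r).symm (i, true)).1), ((l.1 r).symm (i, true)).2⟩ =
        ⟨(r, ((l.1 r).symm (i, false)).1), ((l.1 r).symm (i, false)).2⟩ := by
      apply Subtype.ext
      refine Prod.ext rfl ?_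
      exact congrArg Subtype.val (par_true (l.1 r) i)
    rw [h3]
  have h2 : ∀ c, l.2 c ∈ labC G m K' c := by
    intro c
    rw [labC, mem_filter]
    refine ⟨mem_univ _, fun i => ?_⟩
    rw [hC, hC]
    have h2 := (hK ⟨(((l.2 c).symm (i, true)).1, c), ((l.2 c).symm (i, true)).2⟩).2
    rw [h2]
    have h3 : parC G l ⟨(((l.2 c).symm (i, true)).1, c), ((l.2 c).symm (i, true)).2⟩ =
        ⟨(((l.2 c).symm (i, false)).1, c), ((l.2 c).symm (i, false)).2⟩ := by
      apply Subtype.ext
      refine Prod.ext ?_ rfl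
      exact congrArg Subtype.val (par_true (l.2 c) i)
    rw [h3]
  refine ⟨K', ?_, ?_⟩
  · rw [half, mem_filter]
    refine ⟨mem_univ _, hsub, fun r => ?_, fun c => ?_⟩
    · rw [← card_inR G hsub]
      exact card_of_pairs (l.1 r) _ (mem_filter.1 (h1 r)).2
    · rw [← card_inC G hsub]
      exact card_of_pairs (l.2 c) _ (mem_filter.1 (h2 c)).2
  · rw [com, mem_product, Fintype.mem_piFinset, Fintype.mem_piFinset]
    exact ⟨h1, h2⟩

end Halves

open Halves

theorem halves {n m : ℕ} (G : Gr n) (hG : Reg (2 * m) G) :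
    (2 * m).factorial ^ (2 * n) ≤ (half m G).card * (2 ^ m * m.factorial ^ 2) ^ (2 * n) := by
  classical
  rw [← card_Lab G hG]
  calc Fintype.card (Lab G m) = (univ : Finset (Lab G m)).card := rfl
    _ ≤ ((half m G).biUnion fun K => com G m K).card := by
        apply card_le_card
        intro l _
        obtain ⟨K, hK, hl⟩ := exists_com G l
        exact mem_biUnion.2 ⟨K, hK, hl⟩
    _ ≤ ∑ K ∈ half m G, (com G m K).card := card_biUnion_le
    _ = ∑ K ∈ half m G, (2 ^ m * m.factorial ^ 2) ^ (2 * n) :=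
        sum_congr rfl fun K hK => card_com G hG hK
    _ = _ := by rw [sum_const, smul_eq_mul]

end Pool.Agent.Lead.TB
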